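import Pool.Agent.Y466.TQ.Stm

set_option autoImplicit false

/-! # TQ-FIN: from the antisymmetric function to the class (adapted from `Pool.Agent.Y465.TW`) -/

namespace Pool.Agent.Y891.TQ

open Matrix ExteriorAlgebra Module
open Pool.Agent.Y466.TQ
open Pool.Agent.Y466.TW (P Alt gram)
open Pool.Agent.Results.MP_69cf13_gt.EEightPlusTenH hiding T
open Pool.Agent.Results.MP_69cf13_gt.EEightPlusTenH.Aux

theorem form_spec' (n : ℕ) (hn : 4 ≤ n) (w : Coh n) (hw : w ∈ H n (n - 4)) :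
    IsFormOf (H n 2) w (Pool.Agent.Results.MP_69cf13_gt.EEightPlusTenH.T n)
      (fun x y => vol n (x * y * w)) := by
  intro x hx y hy
  apply top_eq
  have h1 : x * y ∈ (⋀[ℤ]^2 (Fin n → ℤ)) * (⋀[ℤ]^2 (Fin n → ℤ)) :=
    Submodule.mul_mem_mul hx hy
  have hw' : w ∈ ⋀[ℤ]^(n - 4) (Fin n → ℤ) := hw
  have h2 := Submodule.mul_mem_mul h1 hw'
  have h3 : (⋀[ℤ]^2 (Fin n → ℤ)) * (⋀[ℤ]^2 (Fin n → ℤ)) * (⋀[ℤ]^(n - 4) (Fin n → ℤ)) =
      ⋀[ℤ]^n (Fin n → ℤ) := by
    have e : 2 + 2 + (n - 4) = n := by omega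
    rw [← pow_add, ← pow_add, e]
  rw [h3] at h2
  exact h2

/-- the product of two generators -/
noncomputable def E2 (n : ℕ) (p : P (Fin n)) : ⋀[ℤ]^2 (Fin n → ℤ) :=
  ⟨ι ℤ (Pi.single p.1.1 1 : Fin n → ℤ) * ι ℤ (Pi.single p.1.2 1 : Fin n → ℤ), by
    have := Submodule.mul_mem_mul
      (LinearMap.mem_range_self (ι ℤ (M := Fin n → ℤ)) (Pi.single p.1.1 1))
      (LinearMap.mem_range_self (ι ℤ (M := Fin n → ℤ)) (Pi.single p.1.2 1))
    rw [exteriorPower, pow_two]
    exact this⟩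

theorem card_P (n : ℕ) : Fintype.card (P (Fin n)) = n.choose 2 := by
  have h1 : Fintype.card (P (Fin n)) = Fintype.card (Σ a : Fin n, {b : Fin n // a < b}) :=
    Fintype.card_congr (Equiv.subtypeProdEquivSigmaSubtype (fun a b : Fin n => a < b))
  rw [h1, Fintype.card_sigma]
  have h2 : ∀ a : Fin n, Fintype.card {b : Fin n // a < b} = n - 1 - a := by
    intro a
    rw [Fintype.card_subtype]
    have : (Finset.univ.filter fun b : Fin n => a < b) = Finset.Ioi a := by
      ext b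
      simp
    rw [this, Fin.card_Ioi]
  rw [Finset.sum_congr rfl fun a _ => h2 a, Fin.sum_univ_eq_sum_range (fun i => n - 1 - i) n,
    Finset.sum_range_reflect (fun i => i) n, Finset.sum_range_id, Nat.choose_two_right]

theorem fin (h : Pool.Agent.Y466.TW.PD) : FIN := by
  intro n w hn hw ⟨X, hX⟩
  obtain ⟨ω, hω, hE⟩ := h n hn w hw
  have hEE : ∀ p q : P (Fin n), form n ω (E2 n p) (E2 n q) = gram w p q := by
    intro p q
    have h1 := congrArg (vol n) (hE p.1.1 p.1.2 q.1.1 q.1.2)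
    rw [map_smul, vol_T, smul_eq_mul, mul_one] at h1
    exact h1
  let e : Fin (n.choose 2) ≃ P (Fin n) := (Fintype.equivFinOfCardEq (card_P n)).symm
  refine ⟨ω, hω, fun x y => vol n (x * y * ω), form_spec' n hn ω hω,
    fun i => (E2 n (e i) : Coh n), e, ?_, fun i j => hEE (e i) (e j)⟩
  obtain ⟨B, hB⟩ := exists_basis_of_gram (form n ω) (E2 n)
    (by
      rw [exteriorPower.finrank_eq, card_P]
      simp only [Module.finrank_fin_fun]) X (by
      rw [← hX]; congr 1; ext i j; exact hEE i j)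
  refine ⟨fun i => (E2 n (e i)).2, ?_, ?_⟩
  · have h1 := (B.linearIndependent.comp e e.injective).map' (Submodule.subtype _)
      (Submodule.ker_subtype _)
    have h2 : (⇑(Submodule.subtype (⋀[ℤ]^2 (Fin n → ℤ))) ∘ (⇑B ∘ ⇑e)) =
        fun i => (E2 n (e i) : Coh n) := by
      funext i
      simp only [Function.comp_apply, hB, Submodule.subtype_apply]
    rwa [h2] at h1
  · intro z hz
    have h1 : (⟨z, hz⟩ : ⋀[ℤ]^2 (Fin n → ℤ)) ∈ Submodule.span ℤ (Set.range B) := by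
      rw [B.span_eq]; trivial
    have h2 := Submodule.mem_map_of_mem (f := Submodule.subtype (⋀[ℤ]^2 (Fin n → ℤ))) h1
    rw [Submodule.map_span, ← Set.range_comp] at h2
    have h3 : Set.range (⇑(Submodule.subtype (⋀[ℤ]^2 (Fin n → ℤ))) ∘ ⇑B) =
        Set.range fun i => (E2 n (e i) : Coh n) := by
      rw [← e.surjective.range_comp (⇑(Submodule.subtype (⋀[ℤ]^2 (Fin n → ℤ))) ∘ ⇑B)]
      congr 1
      funext i
      simp only [Function.comp_apply, hB, Submodule.subtype_apply]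
    rw [h3] at h2
    exact h2

end Pool.Agent.Y891.TQ
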